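import Mathlib
import Pool.Agent.WLSRG.Srg
import Pool.Agent.WLSRG.NonEq2
import Pool.Agent.WLSRG.Game

/-!
# Strongly regular graphs have unbounded Weisfeiler-Leman dimension

`Pool.Agent.WLSRG.Col` and `Pool.Agent.WLSRG.wl` (file `Pool/Agent/WLSRG/WL.lean`) are the colours
and the colouring of `k`-tuples after `n` rounds of the `k`-dimensional WL method, kept as nested
data.
-/

set_option autoImplicit false

namespace Pool.Agent.Results.MP_d81a4d_co.UnboundedWLDimension

open Pool.Agent.WLSRG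

/-- The `k`-dimensional WL method does not distinguish `G` and `H`: one bijection between the
`k`-tuples of `G` and the `k`-tuples of `H` preserves the colours after every number `n` of rounds,
in particular the stable colours (colours are compared as the nested data they encode). -/
def SameWL (k : ℕ) {V W : Type} [Fintype V] [Fintype W] (G : SimpleGraph V) (H : SimpleGraph W) :
    Prop :=
  ∃ E : (Fin k → V) ≃ (Fin k → W), ∀ (n : ℕ) (S : Fin k → V), wl k G n S = wl k H n (E S)

/-- `G` is `k`-equivalent: `k` is the largest integer for which some finite graph `H` not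
isomorphic to `G` has the same `k`-dimensional WL colours. -/
def KEquivalent (k : ℕ) {V : Type} [Fintype V] (G : SimpleGraph V) : Prop :=
  (∃ (W : Type) (_ : Fintype W) (H : SimpleGraph W), IsEmpty (G ≃g H) ∧ SameWL k G H) ∧
    ∀ m : ℕ, k < m → ∀ (W : Type) (_ : Fintype W) (H : SimpleGraph W), SameWL m G H →
      Nonempty (G ≃g H)

/-- many pebbles identify a graph -/
theorem iso_of_sameWL {V W : Type} [Fintype V] [Fintype W] (G : SimpleGraph V)
    (H : SimpleGraph W) (k : ℕ) (hk : Fintype.card V + 1 ≤ k) (h : SameWL k G H) :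
    Nonempty (G ≃g H) := by
  classical
  obtain ⟨E, hE⟩ := h
  have hcard : Fintype.card V = Fintype.card W := by
    have h1 := Fintype.card_congr E
    simp only [Fintype.card_fun, Fintype.card_fin] at h1
    exact Nat.pow_left_injective (by omega : k ≠ 0) h1
  by_cases hV : IsEmpty V
  · have h0 : Fintype.card W = 0 := by rw [← hcard]; exact Fintype.card_eq_zero
    have hW : IsEmpty W := Fintype.card_eq_zero_iff.1 h0
    exact ⟨⟨Equiv.equivOfIsEmpty V W, fun {a} => hV.elim a⟩⟩
  · rw [not_isEmpty_iff] at hV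
    obtain ⟨S, hS⟩ : ∃ S : Fin k → V, Function.Surjective S := by
      obtain ⟨e⟩ := Fintype.truncEquivFin V
      refine ⟨fun i => if hi : (i : ℕ) < Fintype.card V then e.symm ⟨i, hi⟩ else hV.some, ?_⟩
      intro v
      refine ⟨⟨e v, lt_of_lt_of_le (e v).2 (by omega)⟩, ?_⟩
      simp
    have h0 : ∀ i j, (S i = S j ↔ E S i = E S j) ∧ (G.Adj (S i) (S j) ↔ H.Adj (E S i) (E S j)) := by
      intro i j
      have h1 := congrFun (congrFun (hE 0 S) i) j
      exact ⟨iff_of_eq (congrArg Prod.fst h1), iff_of_eq (congrArg Prod.snd h1)⟩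
    choose r hr using hS
    have hinj : Function.Injective (fun v => E S (r v)) := by
      intro v w hvw
      have h1 := (h0 (r v) (r w)).1.2 hvw
      rwa [hr, hr] at h1
    have hbij : Function.Bijective (fun v => E S (r v)) :=
      (Fintype.bijective_iff_injective_and_card _).2 ⟨hinj, hcard⟩
    refine ⟨⟨Equiv.ofBijective _ hbij, ?_⟩⟩
    intro a b
    have h1 := (h0 (r a) (r b)).2
    rw [hr, hr] at h1
    exact h1.symm

theorem main (k : ℕ) : ∃ (V : Type) (_ : Fintype V) (_ : DecidableEq V) (G H : SimpleGraph V)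
    (_ : DecidableRel G.Adj) (_ : DecidableRel H.Adj) (K : ℕ), 2 ≤ K ∧
      G.IsSRGWith (4 * K ^ 2) (2 * K ^ 2 + K - 1) (K ^ 2 + K - 2) (K ^ 2 + K) ∧
      H.IsSRGWith (4 * K ^ 2) (2 * K ^ 2 + K - 1) (K ^ 2 + K - 2) (K ^ 2 + K) ∧
      IsEmpty (G ≃g H) ∧ SameWL k G H := by
  classical
  let U := Fin (2 * (k + 3)) → ZMod 2
  have hcU : Fintype.card U = 4 ^ (k + 3) := by
    simp only [U, Fintype.card_fun, ZMod.card, Fintype.card_fin]
    rw [pow_mul]; norm_num
  have h16 : 16 ≤ Fintype.card U := by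
    rw [hcU]
    calc 16 = 4 ^ 2 := by norm_num
      _ ≤ 4 ^ (k + 3) := Nat.pow_le_pow_right (by norm_num) (by omega)
  obtain ⟨b0, hb0⟩ : ∃ b : U, b ≠ 0 := by
    obtain ⟨b, hb⟩ := avoid ([0] : List U) (by simp only [List.length_singleton]; omega)
    exact ⟨b, by simpa using hb⟩
  have hQ : 0 < Fintype.card (Qs U) := Fintype.card_pos_iff.2 ⟨0⟩
  have hK : Fintype.card (U × Qs U) = 2 * (2 * 4 ^ (k + 2) * Fintype.card (Qs U)) := by
    rw [Fintype.card_prod, hcU]; ring
  have hK2 : 2 ≤ 2 * 4 ^ (k + 2) * Fintype.card (Qs U) := by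
    have : 1 ≤ 4 ^ (k + 2) := Nat.one_le_pow _ _ (by norm_num)
    nlinarith
  refine ⟨Vx (U × Qs U), inferInstance, inferInstance, gr (cf 0), gr (cf (Pi.single b0 1)),
    inferInstance, inferInstance, _, hK2, ?_, ?_, not_iso h16 hb0, ?_⟩
  · convert srg (cf (U := U) 0) _ hK hK2
  · convert srg (cf (U := U) (Pi.single b0 1)) _ hK hK2
  · exact wl_equal k (le_of_eq hcU.symm) hb0

/-- For every `k` there are two non-isomorphic strongly regular graphs with the same parameters
whose `k`-dimensional WL colourings agree; hence there is no bound on the `k` for which a strongly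
regular graph can be `k`-equivalent. -/
theorem result :
    (∀ k : ℕ, ∃ (V : Type) (_ : Fintype V) (_ : DecidableEq V) (G H : SimpleGraph V)
      (_ : DecidableRel G.Adj) (_ : DecidableRel H.Adj) (K : ℕ), 2 ≤ K ∧
        G.IsSRGWith (4 * K ^ 2) (2 * K ^ 2 + K - 1) (K ^ 2 + K - 2) (K ^ 2 + K) ∧
        H.IsSRGWith (4 * K ^ 2) (2 * K ^ 2 + K - 1) (K ^ 2 + K - 2) (K ^ 2 + K) ∧
        IsEmpty (G ≃g H) ∧ SameWL k G H) ∧
    (∀ B : ℕ, ∃ k : ℕ, B ≤ k ∧ ∃ (V : Type) (_ : Fintype V) (_ : DecidableEq V)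
      (G : SimpleGraph V) (_ : DecidableRel G.Adj) (n d l m : ℕ), G.IsSRGWith n d l m ∧
        KEquivalent k G) := by
  classical
  refine ⟨main, fun B => ?_⟩
  obtain ⟨V, _, _, G, H, _, _, K, _, hG, _, hiso, hwl⟩ := main B
  set A : Set ℕ := {k | ∃ (W : Type) (_ : Fintype W) (H : SimpleGraph W),
    IsEmpty (G ≃g H) ∧ SameWL k G H} with hA
  have hBA : B ∈ A := ⟨V, inferInstance, H, hiso, by convert hwl⟩
  have hbd : BddAbove A := by
    refine ⟨Fintype.card V, ?_⟩
    rintro k ⟨W, _, H', h1, h2⟩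
    by_contra hlt
    push Not at hlt
    obtain ⟨φ⟩ := iso_of_sameWL G H' k hlt h2
    exact h1.false φ
  refine ⟨sSup A, le_csSup hbd hBA, V, inferInstance, inferInstance, G, inferInstance,
    _, _, _, _, hG, Nat.sSup_mem ⟨B, hBA⟩ hbd, ?_⟩
  intro m hm W _ H' h
  by_contra hcon
  have : m ∈ A := ⟨W, inferInstance, H', not_nonempty_iff.1 hcon, h⟩
  exact absurd (le_csSup hbd this) (not_le.2 hm)

end Pool.Agent.Results.MP_d81a4d_co.UnboundedWLDimension
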